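import Mathlib
import Pool.Agent.TH277.CS.D
set_option autoImplicit false

/-! Stein's restriction conjecture for the unit sphere of `ℝ³`: densities that are superpositions
of functions `c e^{iφ} 1_K`, where, in the graph coordinates `y = (x₀, x₁)` of the cap
`x₂ > 0`, `|y| ≤ ρ < 1`, the set `K` is convex and `σ φ - T √(1 - |y|²)` is convex on `K` (no
smoothness, no bound on `φ`): the conjectured estimate, for every `q > 3`, on the half space
`2π σ ξ₂ > T`, with a constant that depends on `q` and `ρ` only. -/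

namespace Pool.Agent.Results.MP_6cbfb8_an.ConvexPhases

open MeasureTheory Set Complex Metric
open scoped ENNReal NNReal RealInnerProductSpace
open Pool.Agent.TH277

/-- The space. -/
abbrev E3 := EuclideanSpace ℝ (Fin 3)

/-- The surface measure of the unit sphere. -/
noncomputable def sigma : Measure (sphere (0 : E3) 1) := (volume : Measure E3).toSphere

/-- The Fourier transform of the measure `f dσ`. -/
noncomputable def ft (f : sphere (0 : E3) 1 → ℂ) (ξ : E3) : ℂ :=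
  ∫ x, cexp (-(2 * Real.pi * I * ((⟪(x : E3), ξ⟫ : ℝ) : ℂ))) * f x ∂sigma

/-- In the graph coordinates `y = (x₀, x₁)` of the upper half sphere `x₂ > 0`, the function `f` is
`c e^{iφ(y)} 1_K(y)`, with `K` convex inside the disc of radius `ρ`, `|c| ≤ 1`, and
`σ φ - T √(1 - |y|²)` convex on `K`; it vanishes on the rest of the sphere. -/
def IsAtom (ρ σ T : ℝ) (f : sphere (0 : E3) 1 → ℂ) : Prop :=
  ∃ (K : Set (ℝ × ℝ)) (φ : ℝ × ℝ → ℝ) (c : ℂ), (∀ y ∈ K, y.1 ^ 2 + y.2 ^ 2 ≤ ρ ^ 2) ∧ ‖c‖ ≤ 1 ∧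
    ConvexOn ℝ K (fun y => σ * φ y - T * Real.sqrt (1 - (y.1 ^ 2 + y.2 ^ 2))) ∧
    ∀ x : sphere (0 : E3) 1, ((0 < (x : E3) 2 ∧ ((x : E3) 0, (x : E3) 1) ∈ K) →
        f x = c * cexp (I * φ ((x : E3) 0, (x : E3) 1))) ∧
      (¬ (0 < (x : E3) 2 ∧ ((x : E3) 0, (x : E3) 1) ∈ K) → f x = 0)

theorem result (q ρ : ℝ) (hq : 3 < q) (hρ0 : 0 ≤ ρ) (hρ : ρ < 1) :
    ∃ C : ℝ≥0, ∀ (σ T : ℝ), (σ = 1 ∨ σ = -1) →
      ∀ (S : Type) [MeasurableSpace S] (ν : Measure S) [IsFiniteMeasure ν]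
        (g : S → sphere (0 : E3) 1 → ℂ),
        Measurable (Function.uncurry g) → (∀ s, IsAtom ρ σ T (g s)) →
        ∫⁻ ξ in {ξ : E3 | T < 2 * Real.pi * σ * ξ 2}, ‖ft (fun x => ∫ s, g s x ∂ν) ξ‖ₑ ^ q ≤
          C * ν univ ^ (q - 2) * ∫⁻ x, ‖∫ s, g s x ∂ν‖ₑ ^ (2 : ℝ) ∂sigma := by
  refine ⟨(CS.cs q ρ).toNNReal, ?_⟩
  intro σ T hσ S _ ν _ g hm ha
  rw [ENNReal.coe_toNNReal (CS.cs_lt q ρ hq).ne]
  exact CS.main_sphere q hq hρ0 hρ hσ ν hm ha

end Pool.Agent.Results.MP_6cbfb8_an.ConvexPhases
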