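import Mathlib
import Pool.Agent.TH407.MZ.All
set_option autoImplicit false

/-! Stein's restriction conjecture for the unit sphere of `ℝ³`, full range `q > 3`, for densities
on the whole sphere that are of bounded variation along the meridians (of any axis), with no
regularity whatsoever in the longitude. The bound on the variation may depend on the meridian and
may blow up towards the poles. -/

namespace Pool.Agent.Results.MP_6cbfb8_an.RayVariationSphere

open MeasureTheory Set Complex Metric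
open scoped ENNReal NNReal RealInnerProductSpace

/-- The space. -/
abbrev E3 := EuclideanSpace ℝ (Fin 3)

/-- The surface measure of the unit sphere. -/
noncomputable def sigma : Measure (sphere (0 : E3) 1) := (volume : Measure E3).toSphere

/-- The Fourier transform of the measure `f dσ`; only the values of `f` on the sphere matter. -/
noncomputable def ft (f : E3 → ℂ) (ξ : E3) : ℂ :=
  ∫ x : sphere (0 : E3) 1, cexp (-(2 * Real.pi * I * ((⟪(x : E3), ξ⟫ : ℝ) : ℂ))) * f x ∂sigma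

/-- For `|h| ≤ 1`, the point of the unit sphere of height `h` and longitude `θ` with respect to
the orthonormal basis `e`, whose third vector is the axis. -/
noncomputable def pt (e : OrthonormalBasis (Fin 3) ℝ E3) (h θ : ℝ) : E3 :=
  (√(1 - h ^ 2) * Real.cos θ) • e 0 + (√(1 - h ^ 2) * Real.sin θ) • e 1 + h • e 2

/-- The variation of `f` along the part `1 - |s| ≥ (1 - |h|) / 16` of the meridian `θ`. -/
noncomputable def merVar (e : OrthonormalBasis (Fin 3) ℝ E3) (f : E3 → ℂ) (h θ : ℝ) : ℝ≥0∞ :=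
  eVariationOn (fun s : ℝ => f (pt e s θ)) {s : ℝ | (1 - |h|) / 16 ≤ 1 - |s|}

lemma pt_eq (e : OrthonormalBasis (Fin 3) ℝ E3) {h : ℝ} (hh : h ^ 2 ≤ 1) (θ : ℝ) :
    (Pool.Agent.TH407.MV.rs e.repr.symm (Pool.Agent.TH407.MZ.Pz h θ) : E3) = pt e h θ := by
  rw [Pool.Agent.TH407.MV.rs_coe, Pool.Agent.TH407.MZ.Pz_coe hh, ← e.sum_repr_symm,
    Fin.sum_univ_three]
  rfl

lemma set_eq (h : ℝ) : {s : ℝ | (1 - |h|) / 16 ≤ 1 - |s|} =
    Icc (-Pool.Agent.TH407.MZ.rr h) (Pool.Agent.TH407.MZ.rr h) := by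
  ext s
  show (1 - |h|) / 16 ≤ 1 - |s| ↔
    -Pool.Agent.TH407.MZ.rr h ≤ s ∧ s ≤ Pool.Agent.TH407.MZ.rr h
  rw [← abs_le]
  unfold Pool.Agent.TH407.MZ.rr
  constructor <;> intro hs <;> linarith

theorem result (q : ℝ) (hq : 3 < q) :
    ∃ C : ℝ≥0, ∀ (e : OrthonormalBasis (Fin 3) ℝ E3) (f : E3 → ℂ) (M : ℝ → ℝ → ℝ≥0∞),
      Measurable f → Measurable (Function.uncurry M) →
      (∀ h ∈ Ioo (-1 : ℝ) 1, ∀ θ ∈ Ioo (-Real.pi) Real.pi,
        ‖f (pt e h θ)‖ₑ + merVar e f h θ ≤ M h θ) →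
      ∫⁻ ξ : E3, ‖ft f ξ‖ₑ ^ q ≤
        C * ∫⁻ h in Ioo (-1 : ℝ) 1, ∫⁻ θ in Ioo (-Real.pi) Real.pi, M h θ ^ q := by
  obtain ⟨C, hC⟩ := Pool.Agent.TH407.MZ.sphere_all q hq
  refine ⟨C, fun e f M hf hM hb => ?_⟩
  refine hC e.repr.symm (fun x => f (x : E3)) M (hf.comp measurable_subtype_coe) hM
    fun θ hθ h hh => ?_
  have h1 : h ^ 2 ≤ 1 := by nlinarith [hh.1, hh.2]
  have h2 := hb h hh θ hθ
  unfold merVar at h2
  rw [set_eq] at h2
  have h3 : EqOn (fun s : ℝ => f (pt e s θ))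
      (fun s => f (Pool.Agent.TH407.MV.rs e.repr.symm (Pool.Agent.TH407.MZ.Pz s θ) : E3))
      (Icc (-Pool.Agent.TH407.MZ.rr h) (Pool.Agent.TH407.MZ.rr h)) := by
    intro s hs
    have h4 := Pool.Agent.TH407.MZ.rr_lt hh
    have h5 : s ^ 2 ≤ 1 := by nlinarith [hs.1, hs.2]
    show f (pt e s θ) = f (Pool.Agent.TH407.MV.rs e.repr.symm (Pool.Agent.TH407.MZ.Pz s θ) : E3)
    rw [pt_eq e h5]
  rw [eVariationOn.congr h3] at h2
  show ‖f (Pool.Agent.TH407.MV.rs e.repr.symm (Pool.Agent.TH407.MZ.Pz h θ) : E3)‖ₑ + _ ≤ _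
  rw [pt_eq e h1]
  exact h2

end Pool.Agent.Results.MP_6cbfb8_an.RayVariationSphere

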