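import Mathlib
import Pool.Agent.TH335.RF.R1
set_option autoImplicit false

/-!
# Stein's restriction conjecture: densities that are rough in few variables

Let `1 ≤ m ≤ n - 2`. We consider densities on the unit sphere of `ℝ^n` of the form
`g(x) = ∑_j e^{i⟨η_j, x⟩} F_j(P_j x)`, where `P_j` is the orthogonal projection onto an arbitrary
`m`-dimensional subspace `V_j`, the frequencies `η_j` are arbitrary, and the `F_j` are arbitrary
measurable functions with `|F_j| ≤ M_j`, `∑ M_j < ∞` (no smoothness). For `m = 1` these are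
absolutely convergent superpositions of modulated arbitrary ridge functions `h(⟨x, ω⟩)`.

* For `m = 1` the Fourier transform of `g dσ` is in `L^q(ℝ^n)` for every `q > 2n/(n-1)`, the full
  conjectured range, with norm at most `C ∑ M_j`.
* For every `m` this holds for `q > 2 + 4/(2n-m-2)`.
* More generally, every estimate `L^∞ → L^P` for the sphere of `ℝ^(m+1)` gives the estimate for
  these densities on the sphere of `ℝ^n` if `(q - 2)((n-m-1)/2 + 1/(P-2)) > 1`. In particular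
  Stein's conjecture in `ℝ^(m+1)` implies it for these densities in `ℝ^n`, every `n ≥ m + 2`, in
  the full range `q > 2n/(n-1)`.
-/

namespace Pool.Agent.Results.MP_6cbfb8_an.RidgeDensities

open MeasureTheory Set Metric Complex
open Pool.Agent.TH335.RF
open Pool.Agent.H438R2.PD (P2 P2_meas T_meas' T_comp)
open Pool.Agent.H789R2.FR (E sg T sg_finite)
open scoped ENNReal RealInnerProductSpace

/-- surface measure on the unit sphere -/
noncomputable def sigma (n : ℕ) : Measure (sphere (0 : E n) 1) := (volume : Measure (E n)).toSphere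

/-- the Fourier transform of the measure `g dσ` -/
noncomputable def ft {n : ℕ} (g : sphere (0 : E n) 1 → ℂ) (ξ : E n) : ℂ :=
  ∫ x, Complex.exp (-(2 * Real.pi * ⟪(x : E n), ξ⟫ : ℝ) * I) * g x ∂(sigma n)

/-- Stein's estimate for the unit sphere of `ℝ^n` and the exponent `p`: the Fourier transform maps
densities bounded by one to a bounded subset of `L^p`. -/
def Stein (n : ℕ) (p : ℝ) : Prop := ∃ C : ℝ, ∀ g : sphere (0 : E n) 1 → ℂ, Measurable g →
  (∀ x, ‖g x‖ ≤ 1) → eLpNorm (ft g) (ENNReal.ofReal p) ≤ ENNReal.ofReal C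

/-- The density `g` on the unit sphere of `ℝ^n` is a superposition
`∑_j e^{i⟨η_j, x⟩} F_j(P_j x)`: `P_j` is the orthogonal projection onto the `m`-dimensional
subspace `V_j`, the functions `F_j` are measurable and `|F_j| ≤ M_j`. -/
def Rough {n : ℕ} (m : ℕ) (M : ℕ → ℝ) (g : sphere (0 : E n) 1 → ℂ) : Prop :=
  ∃ (V : ℕ → Submodule ℝ (E n)) (η : ℕ → E n) (F : ℕ → E n → ℂ),
    (∀ j, Module.finrank ℝ (V j) = m) ∧ (∀ j, Measurable (F j)) ∧ (∀ j y, ‖F j y‖ ≤ M j) ∧
    ∀ᵐ x ∂(sigma n), g x = ∑' j, Complex.exp ((⟪η j, (x : E n)⟫ : ℝ) * I) *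
      F j ((V j).starProjection (x : E n))

/-- The estimate with exponent `q` for all the densities of this form. -/
def Holds (n m : ℕ) (q : ℝ) : Prop := ∃ C : ℝ, 0 < C ∧ ∀ (M : ℕ → ℝ), Summable M →
  ∀ g : sphere (0 : E n) 1 → ℂ, Rough m M g →
    MemLp (ft g) (ENNReal.ofReal q) ∧
    eLpNorm (ft g) (ENNReal.ofReal q) ≤ ENNReal.ofReal (C * ∑' j, M j)

/-! ### Proofs -/

theorem ft_eq {n : ℕ} (g : sphere (0 : E n) 1 → ℂ) (G : E n → ℂ) (hG : Measurable G)
    (Λ : E n ≃ₗᵢ[ℝ] E n) (hg : ∀ᵐ x ∂(sigma n), g x = G (Λ x)) (ξ : E n) :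
    ft g ξ = T G ((2 * Real.pi) • Λ ξ) := by
  rw [← map_smul, ← T_comp]
  unfold T ft
  have m1 : Measurable fun w : E n =>
      Complex.exp (-((⟪(2 * Real.pi) • ξ, w⟫ : ℝ) : ℂ) * I) * G (Λ w) := by
    have h2 : Measurable fun z : E n => (⟪(2 * Real.pi) • ξ, z⟫ : ℝ) :=
      (by fun_prop : Continuous _).measurable
    exact (Complex.measurable_exp.comp ((Complex.measurable_ofReal.comp h2).neg.mul_const I)).mul
      (hG.comp Λ.continuous.measurable)
  simp only [sg]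
  rw [integral_map measurable_subtype_coe.aemeasurable m1.aestronglyMeasurable]
  apply integral_congr_ae
  filter_upwards [hg] with x hx
  rw [hx, real_inner_smul_left, real_inner_comm]

theorem scale {n : ℕ} (f : E n → ℝ≥0∞) (hf : Measurable f) :
    ∫⁻ ξ : E n, f ((2 * Real.pi) • ξ) =
      ENNReal.ofReal ((2 * Real.pi) ^ n)⁻¹ * ∫⁻ z, f z := by
  have h2pi : (2 * Real.pi) ≠ 0 := by positivity
  have h3 := Measure.map_addHaar_smul (volume : Measure (E n)) h2pi
  have h4 : ∫⁻ x : E n, f x ∂(Measure.map ((2 * Real.pi) • · : E n → E n) volume) =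
      ∫⁻ ξ : E n, f ((2 * Real.pi) • ξ) := lintegral_map hf (measurable_const_smul _)
  rw [← h4, h3, lintegral_smul_measure, smul_eq_mul, finrank_euclideanSpace_fin,
    abs_of_nonneg (by positivity)]

theorem TG_meas {n : ℕ} (G : E n → ℂ) (hG : Measurable G) (Λ : E n ≃ₗᵢ[ℝ] E n) :
    Measurable fun ξ : E n => T G ((2 * Real.pi) • Λ ξ) := by
  have hTm : Measurable (T G) := T_meas' G hG
  have hm1 : Measurable fun ξ : E n => T G ((2 * Real.pi) • ξ) := by
    have h1 : Measurable fun x : E n => (2 * Real.pi) • x := measurable_const_smul _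
    have h2 := Measurable.comp hTm h1
    exact h2
  have h2 := Measurable.comp hm1 Λ.continuous.measurable
  exact h2

theorem ft_int_le {n : ℕ} (q : ℝ) (g : sphere (0 : E n) 1 → ℂ) (G : E n → ℂ)
    (hG : Measurable G) (Λ : E n ≃ₗᵢ[ℝ] E n) (hg : ∀ᵐ x ∂(sigma n), g x = G (Λ x)) :
    Measurable (ft g) ∧ ∫⁻ ξ, ‖ft g ξ‖ₑ ^ q ≤ ∫⁻ z, ‖T G z‖ₑ ^ q := by
  have hfun : ft g = fun ξ => T G ((2 * Real.pi) • Λ ξ) := funext fun ξ => ft_eq g G hG Λ hg ξ
  have hTm : Measurable (T G) := T_meas' G hG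
  have hmeas : Measurable fun z => ‖T G z‖ₑ ^ q := hTm.enorm.pow_const q
  have hm1 : Measurable fun ξ : E n => ‖T G ((2 * Real.pi) • ξ)‖ₑ ^ q := by
    have h1 : Measurable fun x : E n => (2 * Real.pi) • x := measurable_const_smul _
    exact hmeas.comp h1
  refine ⟨by rw [hfun]; exact TG_meas G hG Λ, ?_⟩
  rw [hfun]
  have h1 : ∫⁻ ξ, ‖T G ((2 * Real.pi) • Λ ξ)‖ₑ ^ q = ∫⁻ ξ, ‖T G ((2 * Real.pi) • ξ)‖ₑ ^ q :=
    Λ.measurePreserving.lintegral_comp hm1
  rw [h1, scale (fun z => ‖T G z‖ₑ ^ q) hmeas]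
  have h5 : ENNReal.ofReal ((2 * Real.pi) ^ n)⁻¹ ≤ 1 := by
    rw [ENNReal.ofReal_le_one]
    apply inv_le_one_of_one_le₀
    apply one_le_pow₀
    linarith [Real.pi_gt_three]
  calc _ ≤ 1 * ∫⁻ z, ‖T G z‖ₑ ^ q := by gcongr
    _ = _ := one_mul _

theorem ft_mod {n : ℕ} (g : sphere (0 : E n) 1 → ℂ) (η ξ : E n) :
    ft (fun x => Complex.exp ((⟪η, (x : E n)⟫ : ℝ) * I) * g x) ξ =
      ft g (ξ - (2 * Real.pi)⁻¹ • η) := by
  unfold ft
  refine integral_congr_ae (Filter.Eventually.of_forall fun x => ?_)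
  simp only
  rw [← mul_assoc, ← Complex.exp_add, inner_sub_right, real_inner_smul_right,
    real_inner_comm (x : E n) η]
  have hpi := Real.pi_ne_zero
  congr 2
  push_cast
  field_simp
  ring

theorem rt_of_stein (n : ℕ) (P : ℝ) (hP : 0 < P) (h : Stein n P) : RT n P := by
  obtain ⟨C, hC⟩ := h
  set C' : ℝ := |C| + 1 with hC'
  have hC'0 : 0 < C' := by positivity
  have h2pi : 0 < (2 * Real.pi) ^ n := by positivity
  refine ⟨(2 * Real.pi) ^ n * C' ^ P, by positivity, fun G hG hb => ?_⟩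
  set g : sphere (0 : E n) 1 → ℂ := fun x => G x with hg
  have hgm : Measurable g := hG.comp measurable_subtype_coe
  have h1 := hC g hgm (fun x => hb _)
  have hfun : ft g = fun ξ => T G ((2 * Real.pi) • ξ) := by
    funext ξ
    have h2 := ft_eq g G hG (LinearIsometryEquiv.refl ℝ (E n)) (Filter.Eventually.of_forall
      fun x => rfl) ξ
    exact h2
  rw [eLpNorm_eq_lintegral_rpow_enorm_toReal (by simpa using hP) ENNReal.ofReal_ne_top,
    ENNReal.toReal_ofReal hP.le, hfun] at h1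
  have hmeas : Measurable fun z => ‖T G z‖ₑ ^ P := (T_meas' G hG).enorm.pow_const P
  rw [scale (fun z => ‖T G z‖ₑ ^ P) hmeas] at h1
  have h2 : ENNReal.ofReal ((2 * Real.pi) ^ n)⁻¹ * ∫⁻ z, ‖T G z‖ₑ ^ P ≤
      ENNReal.ofReal (C' ^ P) := by
    have h3 := ENNReal.rpow_le_rpow h1 hP.le
    rw [← ENNReal.rpow_mul, one_div_mul_cancel hP.ne', ENNReal.rpow_one] at h3
    refine h3.trans ?_
    rw [← ENNReal.ofReal_rpow_of_nonneg hC'0.le hP.le]
    apply ENNReal.rpow_le_rpow _ hP.le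
    apply ENNReal.ofReal_le_ofReal
    rw [hC']
    linarith [le_abs_self C]
  calc ∫⁻ z, ‖T G z‖ₑ ^ P = ENNReal.ofReal ((2 * Real.pi) ^ n) *
        (ENNReal.ofReal ((2 * Real.pi) ^ n)⁻¹ * ∫⁻ z, ‖T G z‖ₑ ^ P) := by
        rw [← mul_assoc, ← ENNReal.ofReal_mul h2pi.le, mul_inv_cancel₀ h2pi.ne',
          ENNReal.ofReal_one, one_mul]
    _ ≤ ENNReal.ofReal ((2 * Real.pi) ^ n) * ENNReal.ofReal (C' ^ P) := by gcongr
    _ = _ := by rw [← ENNReal.ofReal_mul h2pi.le]

theorem proj_meas {n : ℕ} (V : Submodule ℝ (E n)) (F : E n → ℂ) (hF : Measurable F) :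
    Measurable fun x : E n => F (V.starProjection x) :=
  hF.comp V.starProjection.continuous.measurable

/-- one term of the superposition -/
theorem one_term (k m : ℕ) (q : ℝ) (hq : 0 < q) (C : ℝ) (hC : 0 < C)
    (h : ∀ (F : E m → ℂ), Measurable F → (∀ y, ‖F y‖ ≤ 1) →
      ∫⁻ z, ‖T (fun z : E (k + m) => F (P2 k m z)) z‖ₑ ^ q ≤ ENNReal.ofReal C)
    (V : Submodule ℝ (E (k + m))) (hV : Module.finrank ℝ V = m) (η : E (k + m))
    (F : E (k + m) → ℂ) (hFm : Measurable F) (M : ℝ) (hF : ∀ y, ‖F y‖ ≤ M) :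
    Measurable (ft fun x : sphere (0 : E (k + m)) 1 => Complex.exp ((⟪η, (x : E (k + m))⟫ : ℝ) * I) *
      F (V.starProjection (x : E (k + m)))) ∧
    (∫⁻ ξ, ‖ft (fun x : sphere (0 : E (k + m)) 1 =>
      Complex.exp ((⟪η, (x : E (k + m))⟫ : ℝ) * I) *
      F (V.starProjection (x : E (k + m)))) ξ‖ₑ ^ q) ^ (1 / q) ≤
      ENNReal.ofReal (C ^ (1 / q) * M) := by
  have hM0 : 0 ≤ M := (norm_nonneg _).trans (hF 0)
  obtain ⟨Λ, ι, hι, hcoord⟩ := coords k m V hV
  -- normalised function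
  set F' : E m → ℂ := fun y => ((M⁻¹ : ℝ) : ℂ) * F (ι y) with hF'
  have hF'm : Measurable F' := (hFm.comp hι).const_mul _
  have hF'1 : ∀ y, ‖F' y‖ ≤ 1 := by
    intro y
    rw [hF']
    simp only [norm_mul, Complex.norm_real, Real.norm_of_nonneg (inv_nonneg.2 hM0)]
    rcases hM0.eq_or_lt with h0 | h0
    · rw [← h0]; simp
    · rw [inv_mul_le_iff₀ h0, mul_one]
      exact hF _
  have hFF' : ∀ y, F (ι y) = (M : ℂ) * F' y := by
    intro y
    rw [hF']
    rcases hM0.eq_or_lt with h0 | h0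
    · have h1 := hF (ι y)
      rw [← h0] at h1
      have h2 : F (ι y) = 0 := norm_le_zero_iff.1 h1
      simp [h2]
    · simp only
      rw [← mul_assoc, ← Complex.ofReal_mul, mul_inv_cancel₀ h0.ne', Complex.ofReal_one, one_mul]
  set G : E (k + m) → ℂ := fun z => F' (P2 k m z) with hG
  have hGm : Measurable G := hF'm.comp (P2_meas k m)
  have hGae : ∀ᵐ x ∂(sigma (k + m)), (fun x : sphere (0 : E (k + m)) 1 =>
      F' (P2 k m (Λ (x : E (k + m))))) x = G (Λ x) := Filter.Eventually.of_forall fun x => rfl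
  obtain ⟨hm1, hint⟩ := ft_int_le q _ G hGm Λ hGae
  set g0 : sphere (0 : E (k + m)) 1 → ℂ := fun x => F' (P2 k m (Λ (x : E (k + m)))) with hg0
  have hfun : ft (fun x : sphere (0 : E (k + m)) 1 =>
      Complex.exp ((⟪η, (x : E (k + m))⟫ : ℝ) * I) * F (V.starProjection (x : E (k + m)))) =
      fun ξ => (M : ℂ) * ft g0 (ξ - (2 * Real.pi)⁻¹ • η) := by
    funext ξ
    rw [← ft_mod]
    unfold ft
    rw [← integral_const_mul]
    refine integral_congr_ae (Filter.Eventually.of_forall fun x => ?_)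
    simp only [hg0]
    rw [hcoord, hFF']
    ring
  have hsub : Measurable fun ξ : E (k + m) => ξ - (2 * Real.pi)⁻¹ • η :=
    measurable_id.sub_const _
  rw [hfun]
  refine ⟨(hm1.comp hsub).const_mul _, ?_⟩
  have h1 : ∫⁻ ξ, ‖(M : ℂ) * ft g0 (ξ - (2 * Real.pi)⁻¹ • η)‖ₑ ^ q ≤
      ENNReal.ofReal (M ^ q * C) := by
    calc ∫⁻ ξ, ‖(M : ℂ) * ft g0 (ξ - (2 * Real.pi)⁻¹ • η)‖ₑ ^ q
        = ∫⁻ ξ, ENNReal.ofReal (M ^ q) * ‖ft g0 (ξ - (2 * Real.pi)⁻¹ • η)‖ₑ ^ q := by
          refine lintegral_congr fun ξ => ?_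
          rw [enorm_mul, ENNReal.mul_rpow_of_nonneg _ _ hq.le, ← ofReal_norm (M : ℂ),
            Complex.norm_real, Real.norm_of_nonneg hM0, ENNReal.ofReal_rpow_of_nonneg hM0 hq.le]
      _ = ENNReal.ofReal (M ^ q) * ∫⁻ ξ, ‖ft g0 ξ‖ₑ ^ q := by
          rw [lintegral_const_mul' _ _ ENNReal.ofReal_ne_top]
          congr 1
          exact lintegral_sub_right_eq_self (fun ξ => ‖ft g0 ξ‖ₑ ^ q) ((2 * Real.pi)⁻¹ • η)
      _ ≤ ENNReal.ofReal (M ^ q) * ENNReal.ofReal C := by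
          gcongr
          exact hint.trans (h F' hF'm hF'1)
      _ = _ := by rw [← ENNReal.ofReal_mul (by positivity)]
  refine (ENNReal.rpow_le_rpow h1 (by positivity)).trans (le_of_eq ?_)
  rw [ENNReal.ofReal_rpow_of_nonneg (by positivity) (by positivity),
    Real.mul_rpow (by positivity) hC.le, ← Real.rpow_mul hM0, mul_one_div_cancel hq.ne',
    Real.rpow_one, mul_comm]

/-- the superposition -/
theorem holds_of (k m : ℕ) (q : ℝ) (hq : 1 ≤ q) (C : ℝ) (hC : 0 < C)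
    (h : ∀ (F : E m → ℂ), Measurable F → (∀ y, ‖F y‖ ≤ 1) →
      ∫⁻ z, ‖T (fun z : E (k + m) => F (P2 k m z)) z‖ₑ ^ q ≤ ENNReal.ofReal C) :
    Holds (k + m) m q := by
  have hq0 : 0 < q := by linarith
  refine ⟨C ^ (1 / q), by positivity, ?_⟩
  rintro M hM g ⟨V, η, F, hV, hFm, hF, hg⟩
  have hM0 : ∀ j, 0 ≤ M j := fun j => (norm_nonneg _).trans (hF j 0)
  set gj : ℕ → sphere (0 : E (k + m)) 1 → ℂ := fun j x =>
    Complex.exp ((⟪η j, (x : E (k + m))⟫ : ℝ) * I) *
      F j ((V j).starProjection (x : E (k + m))) with hgj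
  have hone := fun j => one_term k m q hq0 C hC h (V j) (hV j) (η j) (F j) (hFm j) (M j) (hF j)
  have hfin : IsFiniteMeasure (sigma (k + m)) := by unfold sigma; infer_instance
  have hgjm : ∀ j, Measurable (gj j) := by
    intro j
    have h1 : Measurable fun x : E (k + m) => Complex.exp ((⟪η j, x⟫ : ℝ) * I) *
        F j ((V j).starProjection x) := by
      refine Measurable.mul ?_ (proj_meas _ _ (hFm j))
      have h2 : Measurable fun x : E (k + m) => (⟪η j, x⟫ : ℝ) := by fun_prop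
      exact Complex.measurable_exp.comp ((Complex.measurable_ofReal.comp h2).mul_const I)
    exact h1.comp measurable_subtype_coe
  have hgjb : ∀ j x, ‖gj j x‖ ≤ M j := by
    intro j x
    rw [hgj]
    simp only [norm_mul, Complex.norm_exp_ofReal_mul_I, one_mul]
    exact hF j _
  have hsum : ∀ ξ, ft g ξ = ∑' j, ft (gj j) ξ := by
    intro ξ
    unfold ft
    have hen : ∀ (j : ℕ) (x : sphere (0 : E (k + m)) 1),
        ‖Complex.exp (-(2 * Real.pi * ⟪(x : E (k + m)), ξ⟫ : ℝ) * I) * gj j x‖ₑ ≤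
          ENNReal.ofReal (M j) := by
      intro j x
      rw [← ofReal_norm]
      apply ENNReal.ofReal_le_ofReal
      have h3 : -(((2 * Real.pi * ⟪(x : E (k + m)), ξ⟫ : ℝ)) : ℂ) * I =
          ((-(2 * Real.pi * ⟪(x : E (k + m)), ξ⟫) : ℝ) : ℂ) * I := by push_cast; ring
      rw [norm_mul, h3, Complex.norm_exp_ofReal_mul_I, one_mul]
      exact hgjb j x
    have hexm : Measurable fun x : sphere (0 : E (k + m)) 1 =>
        Complex.exp (-(2 * Real.pi * ⟪(x : E (k + m)), ξ⟫ : ℝ) * I) := by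
      have h4 : Continuous fun x : sphere (0 : E (k + m)) 1 =>
        Complex.exp (-(2 * Real.pi * ⟪(x : E (k + m)), ξ⟫ : ℝ) * I) := by fun_prop
      exact h4.measurable
    rw [← integral_tsum]
    · refine integral_congr_ae ?_
      filter_upwards [hg] with x hx
      rw [hx, ← tsum_mul_left]
    · exact fun j => (hexm.mul (hgjm j)).aestronglyMeasurable
    · have h5 : ∑' j, ∫⁻ x, ‖Complex.exp (-(2 * Real.pi * ⟪(x : E (k + m)), ξ⟫ : ℝ) * I) *
          gj j x‖ₑ ∂(sigma (k + m)) ≤ ∑' j, ENNReal.ofReal (M j) * sigma (k + m) univ := by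
        apply ENNReal.tsum_le_tsum
        intro j
        calc _ ≤ ∫⁻ _x, ENNReal.ofReal (M j) ∂(sigma (k + m)) := lintegral_mono (hen j)
          _ = _ := by rw [lintegral_const]
      refine (h5.trans_lt ?_).ne
      rw [ENNReal.tsum_mul_right, ← ENNReal.ofReal_tsum_of_nonneg hM0 hM]
      exact ENNReal.mul_lt_top ENNReal.ofReal_lt_top (measure_lt_top _ _)
  have hfun : ft g = fun ξ => ∑' j, ft (gj j) ξ := funext hsum
  have hmeas : Measurable (ft g) := by
    rw [hfun]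
    exact Measurable.tsum fun j => (hone j).1
  have hle : ∫⁻ ξ, ‖ft g ξ‖ₑ ^ q ≤ (ENNReal.ofReal (C ^ (1 / q) * ∑' j, M j)) ^ q := by
    calc ∫⁻ ξ, ‖ft g ξ‖ₑ ^ q ≤ ∫⁻ ξ, (∑' j, ‖ft (gj j) ξ‖ₑ) ^ q := by
          apply lintegral_mono
          intro ξ
          simp only
          rw [hsum]
          exact ENNReal.rpow_le_rpow enorm_tsum_le_tsum_enorm hq0.le
      _ ≤ (∑' j, (∫⁻ ξ, ‖ft (gj j) ξ‖ₑ ^ q) ^ (1 / q)) ^ q :=
          mink volume q hq (fun j ξ => ‖ft (gj j) ξ‖ₑ) fun j => (hone j).1.enorm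
      _ ≤ (∑' j, ENNReal.ofReal (C ^ (1 / q) * M j)) ^ q :=
          ENNReal.rpow_le_rpow (ENNReal.tsum_le_tsum fun j => (hone j).2) hq0.le
      _ = _ := by
          rw [← ENNReal.ofReal_tsum_of_nonneg (fun j => mul_nonneg (by positivity) (hM0 j))
            (hM.mul_left _), tsum_mul_left]
  have hnorm : eLpNorm (ft g) (ENNReal.ofReal q) ≤
      ENNReal.ofReal (C ^ (1 / q) * ∑' j, M j) := by
    rw [eLpNorm_eq_lintegral_rpow_enorm_toReal (by simpa using hq0) ENNReal.ofReal_ne_top,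
      ENNReal.toReal_ofReal hq0.le]
    refine (ENNReal.rpow_le_rpow hle (by positivity)).trans (le_of_eq ?_)
    rw [← ENNReal.rpow_mul, mul_one_div_cancel hq0.ne', ENNReal.rpow_one]
  exact ⟨⟨hmeas.aestronglyMeasurable, hnorm.trans_lt ENNReal.ofReal_lt_top⟩, hnorm⟩

theorem holds_hyp (k m : ℕ) (hk : 2 ≤ k) (hm : 1 ≤ m) (P q : ℝ) (hP : 2 < P) (hyp : Hyp k m P)
    (h : 1 < (q - 2) * (((k : ℝ) - 1) / 2 + 1 / (P - 2))) : Holds (k + m) m q := by
  obtain ⟨C, hC, hT⟩ := T_bound (m := m) k hk hm P q hP hyp h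
  have hk' : (2 : ℝ) ≤ k := by exact_mod_cast hk
  have hD : 0 < ((k : ℝ) - 1) / 2 + 1 / (P - 2) := by
    have h1 : 0 < 1 / (P - 2) := one_div_pos.2 (by linarith)
    have h2 : 0 < ((k : ℝ) - 1) / 2 := by linarith
    linarith
  have hq : 0 < q - 2 := by
    by_contra hc
    have : (q - 2) * (((k : ℝ) - 1) / 2 + 1 / (P - 2)) ≤ 0 :=
      mul_nonpos_of_nonpos_of_nonneg (not_lt.1 hc) hD.le
    linarith
  exact holds_of k m q (by linarith) C hC hT

theorem exists_P (k : ℕ) (hk : 2 ≤ k) (B q : ℝ) (hB : 0 < B)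
    (h : 1 < (q - 2) * (((k : ℝ) - 1) / 2 + B)) : ∃ P : ℝ, 2 < P ∧ 1 / (P - 2) < B ∧
    1 < (q - 2) * (((k : ℝ) - 1) / 2 + 1 / (P - 2)) := by
  have hk' : (2 : ℝ) ≤ k := by exact_mod_cast hk
  have hq : 0 < q - 2 := by
    by_contra hc
    have : (q - 2) * (((k : ℝ) - 1) / 2 + B) ≤ 0 :=
      mul_nonpos_of_nonpos_of_nonneg (not_lt.1 hc) (by linarith)
    linarith
  have h1 : 1 / (q - 2) - ((k : ℝ) - 1) / 2 < B := by
    have h2 : 1 / (q - 2) < ((k : ℝ) - 1) / 2 + B := by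
      rw [div_lt_iff₀ hq, mul_comm]
      exact h
    linarith
  obtain ⟨v, hv1, hv2⟩ := exists_between (max_lt h1 hB)
  have hv0 : 0 < v := lt_of_le_of_lt (le_max_right _ _) hv1
  have hv3 : 1 / (q - 2) - ((k : ℝ) - 1) / 2 < v := lt_of_le_of_lt (le_max_left _ _) hv1
  refine ⟨2 + 1 / v, by linarith [one_div_pos.2 hv0], ?_, ?_⟩
  · rw [add_sub_cancel_left, one_div_one_div]
    exact hv2
  · rw [add_sub_cancel_left, one_div_one_div]
    have h4 : 1 / (q - 2) < ((k : ℝ) - 1) / 2 + v := by linarith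
    rw [div_lt_iff₀ hq] at h4
    rw [mul_comm]
    exact h4

/-- **Theorem.** Densities which are rough in `m` variables, `1 ≤ m ≤ n - 2`. The estimate with
exponent `q` holds in each of the following cases: `m = 1` and `q` is in the full conjectured range
`q > 2n/(n-1)`; `q > 2 + 4/(2n-m-2)`; Stein's estimate is true for the sphere of `ℝ^(m+1)` and some
`P > 2` with `(q - 2)((n-m-1)/2 + 1/(P-2)) > 1`; Stein's conjecture is true in `ℝ^(m+1)` and
`q > 2n/(n-1)`. -/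
theorem result (n m : ℕ) (hm : 1 ≤ m) (hmn : m + 2 ≤ n) (q : ℝ)
    (h : (m = 1 ∧ 2 * (n : ℝ) / (n - 1) < q) ∨
      2 + 4 / (2 * (n : ℝ) - m - 2) < q ∨
      (∃ P : ℝ, 2 < P ∧ Stein (m + 1) P ∧
        1 < (q - 2) * (((n : ℝ) - m - 1) / 2 + 1 / (P - 2))) ∨
      ((∀ P : ℝ, 2 * ((m : ℝ) + 1) / m < P → Stein (m + 1) P) ∧ 2 * (n : ℝ) / (n - 1) < q)) :
    Holds n m q := by
  obtain ⟨k, rfl⟩ : ∃ k, n = k + m := ⟨n - m, by omega⟩
  have hk : 2 ≤ k := by omega
  have hk' : (2 : ℝ) ≤ k := by exact_mod_cast hk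
  have hm' : (1 : ℝ) ≤ m := by exact_mod_cast hm
  have hcast : ((k + m : ℕ) : ℝ) = (k : ℝ) + m := by push_cast; ring
  have e0 : ((k + m : ℕ) : ℝ) - m - 1 = (k : ℝ) - 1 := by rw [hcast]; ring
  -- the conjectured range
  have hfull : 2 * ((k + m : ℕ) : ℝ) / (((k + m : ℕ) : ℝ) - 1) < q →
      1 < (q - 2) * (((k : ℝ) - 1) / 2 + m / 2) := by
    intro hq
    rw [hcast, div_lt_iff₀ (by linarith)] at hq
    nlinarith
  have hA : ∀ P : ℝ, 2 < P → Stein (m + 1) P →
      1 < (q - 2) * (((k : ℝ) - 1) / 2 + 1 / (P - 2)) → Holds (k + m) m q := by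
    intro P hP hS h
    have h1 : RT (1 + m) P := by
      rw [add_comm]
      exact rt_of_stein (m + 1) P (by linarith) hS
    exact holds_hyp k m hk hm P q hP (hyp_of_rest k hk hm P h1) h
  rcases h with ⟨h1, hq⟩ | hq | ⟨P, hP, hS, h⟩ | ⟨hS, hq⟩
  · subst h1
    refine holds_hyp k 1 hk le_rfl 4 q (by norm_num) (hyp_one k hk) ?_
    have h1 := hfull hq
    push_cast at h1
    norm_num at h1 ⊢
    exact h1
  · have h1 : 1 < (q - 2) * (((k : ℝ) - 1) / 2 + m / 4) := by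
      rw [hcast] at hq
      have h2 : 0 < 2 * ((k : ℝ) + m) - m - 2 := by linarith
      have h3 : 4 / (2 * ((k : ℝ) + m) - m - 2) < q - 2 := by linarith
      rw [div_lt_iff₀ h2] at h3
      nlinarith
    obtain ⟨P, hP, hPB, h2⟩ := exists_P k hk (m / 4) q (by positivity) h1
    refine holds_hyp k m hk hm P q hP (hyp_of_rest k hk hm P ?_) h2
    apply stein_tomas (1 + m) (by omega) P
    have h3 : ((1 + m : ℕ) : ℝ) = 1 + m := by push_cast; ring
    rw [h3]
    have hP2 : 0 < P - 2 := by linarith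
    rw [div_lt_iff₀ hP2] at hPB
    rw [div_lt_iff₀ (by linarith)]
    nlinarith
  · rw [e0] at h
    exact hA P hP hS h
  · obtain ⟨P, hP, hPB, h2⟩ := exists_P k hk (m / 2) q (by positivity) (hfull hq)
    refine hA P hP (hS P ?_) h2
    have hP2 : 0 < P - 2 := by linarith
    rw [div_lt_iff₀ hP2] at hPB
    rw [div_lt_iff₀ (by linarith)]
    nlinarith

end Pool.Agent.Results.MP_6cbfb8_an.RidgeDensities
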